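import Mathlib
set_option autoImplicit false
open Set Topology Filter Complex

namespace Pool.Agent.H.Lev

noncomputable def bt (σ : ℝ) (w : ℂ) : ℂ :=
  (1 - (Real.exp σ : ℝ) * w) / (1 - (Real.exp (-σ) : ℝ) * w)

theorem e2 {s : ℝ} (h0 : 0 ≤ s) (h : s ≤ 1 / 2) : Real.exp (-(2 * s)) ≤ 1 - s := by
  rw [Real.exp_neg, inv_le_comm₀ (Real.exp_pos _) (by linarith)]
  refine le_trans ?_ (Real.add_one_le_exp _)
  rw [inv_le_iff_one_le_mul₀ (by linarith)]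
  nlinarith

theorem rho_bd {σ : ℝ} (h0 : 0 < σ) (h : σ ≤ 1 / 2) :
    1 / 2 ≤ Real.exp (-σ) ∧ σ / 2 ≤ 1 - Real.exp (-σ) ∧ Real.exp σ * Real.exp (-σ) = 1 := by
  refine ⟨by linarith [Real.add_one_le_exp (-σ)], ?_, by rw [← Real.exp_add]; simp⟩
  have := e2 (s := σ / 2) (by linarith) (by linarith)
  rw [show 2 * (σ / 2) = σ by ring] at this
  linarith

theorem den_ge {σ : ℝ} (w : ℂ) :
    1 - Real.exp (-σ) * ‖w‖ ≤ ‖1 - (Real.exp (-σ) : ℝ) * w‖ := by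
  have := norm_sub_norm_le (1 : ℂ) ((Real.exp (-σ) : ℝ) * w)
  rwa [norm_one, norm_mul, Complex.norm_real, Real.norm_of_nonneg (Real.exp_pos _).le] at this

theorem den_pos {σ : ℝ} (h0 : 0 < σ) (h : σ ≤ 1 / 2) {w : ℂ} (hw : ‖w‖ ≤ 1) :
    0 < ‖1 - (Real.exp (-σ) : ℝ) * w‖ := by
  obtain ⟨a, b, -⟩ := rho_bd h0 h
  have := den_ge (σ := σ) w
  nlinarith

theorem key_id (ρ : ℝ) (w : ℂ) :
    ‖(ρ : ℂ) - w‖ ^ 2 = ‖1 - ρ * w‖ ^ 2 - (1 - ρ ^ 2) * (1 - ‖w‖ ^ 2) := by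
  simp only [← normSq_eq_norm_sq, normSq_apply]
  simp; ring

theorem norm_bt (σ : ℝ) (w : ℂ) : ‖bt σ w‖ =
    Real.exp σ * ‖((Real.exp (-σ) : ℝ) : ℂ) - w‖ / ‖1 - (Real.exp (-σ) : ℝ) * w‖ := by
  have : (1 - (Real.exp σ : ℝ) * w : ℂ) = (Real.exp σ : ℝ) * (((Real.exp (-σ) : ℝ) : ℂ) - w) := by
    rw [mul_sub, ← ofReal_mul, ← Real.exp_add]; simp
  rw [bt, norm_div, this, norm_mul, Complex.norm_real, Real.norm_of_nonneg (Real.exp_pos _).le]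

theorem bt_le {σ : ℝ} (h0 : 0 < σ) (h : σ ≤ 1 / 2) {w : ℂ} (hw : ‖w‖ ≤ 1) :
    ‖bt σ w‖ ≤ Real.exp σ := by
  obtain ⟨a, b, -⟩ := rho_bd h0 h
  rw [norm_bt, div_le_iff₀ (den_pos h0 h hw)]
  refine mul_le_mul_of_nonneg_left ?_ (Real.exp_pos _).le
  refine abs_le_of_sq_le_sq' ?_ (norm_nonneg _) |>.2
  rw [key_id]
  have : 0 ≤ (1 - Real.exp (-σ) ^ 2) * (1 - ‖w‖ ^ 2) :=
    mul_nonneg (by nlinarith) (by nlinarith [norm_nonneg w])
  linarith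

theorem bt_ge {σ s : ℝ} (h0 : 0 < σ) (h : σ ≤ 1 / 2) {w : ℂ} (hw : ‖w‖ ≤ 1) (s0 : 0 ≤ s)
    (s1 : s ≤ 1 / 2) (hs : 1 - ‖w‖ ^ 2 ≤ σ * s / 4) : Real.exp (σ - s) ≤ ‖bt σ w‖ := by
  obtain ⟨a, b, -⟩ := rho_bd h0 h
  have hd := den_pos h0 h hw
  rw [norm_bt, le_div_iff₀ hd, sub_eq_add_neg, Real.exp_add, mul_assoc]
  refine mul_le_mul_of_nonneg_left ?_ (Real.exp_pos _).le
  refine abs_le_of_sq_le_sq' ?_ (norm_nonneg _) |>.2
  rw [key_id, mul_pow]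
  set ρ := Real.exp (-σ)
  set d := ‖1 - (ρ : ℂ) * w‖
  have h1 : 1 - ρ ≤ d := by
    have := den_ge (σ := σ) w
    nlinarith
  have h2 : Real.exp (-s) ^ 2 ≤ 1 - s := by
    rw [← Real.exp_nat_mul]; convert e2 s0 s1 using 2; push_cast; ring
  have h3 : (1 - ρ ^ 2) * (1 - ‖w‖ ^ 2) ≤ s * d ^ 2 := by
    have k1 : (1 - ρ ^ 2) * (1 - ‖w‖ ^ 2) ≤ (2 * (1 - ρ)) * (σ * s / 4) :=
      mul_le_mul (by nlinarith) hs (by nlinarith [norm_nonneg w]) (by linarith)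
    have k2 : (1 - ρ) ^ 2 ≤ d ^ 2 := by gcongr; linarith
    have k3 : (2 * (1 - ρ)) * (σ * s / 4) ≤ s * (1 - ρ) ^ 2 := by
      have : 0 ≤ s * (1 - ρ) * (1 - ρ - σ / 2) := by
        apply mul_nonneg (mul_nonneg s0 (by linarith)); linarith
      nlinarith
    nlinarith
  nlinarith [sq_nonneg d]

theorem bt_near {σ : ℝ} (h0 : 0 < σ) (h : σ ≤ 1 / 2) {w : ℂ} (hw : ‖w‖ ≤ 1 / 4) :
    ‖bt σ w - 1‖ ≤ 2 * ‖w‖ := by
  obtain ⟨a, b, c⟩ := rho_bd h0 h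
  have hd := den_pos h0 h (w := w) (by linarith)
  have h1 := den_ge (σ := σ) w
  have : bt σ w - 1 = ((Real.exp (-σ) - Real.exp σ : ℝ) : ℂ) * w /
      (1 - (Real.exp (-σ) : ℝ) * w) := by
    rw [bt, div_sub_one (norm_pos_iff.1 hd)]; push_cast; ring
  rw [this, norm_div, norm_mul, Complex.norm_real, div_le_iff₀ hd]
  have hp := Real.exp_pos σ
  have k : ‖Real.exp (-σ) - Real.exp σ‖ ≤ 3 / 2 := by
    rw [Real.norm_eq_abs, abs_le]; constructor <;> nlinarith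
  have k2 : 3 / 4 ≤ ‖1 - (Real.exp (-σ) : ℝ) * w‖ := by nlinarith [norm_nonneg w]
  nlinarith [norm_nonneg w]

theorem bt_near_le {σ r : ℝ} (h0 : 0 < σ) (h : σ ≤ 1 / 2) {w : ℂ} (hw : ‖w‖ ≤ r)
    (hr : r ≤ 1 / 4) : ‖bt σ w‖ ≤ Real.exp (2 * r) ∧ Real.exp (-(4 * r)) ≤ ‖bt σ w‖ := by
  have := bt_near h0 h (w := w) (by linarith)
  have h1 := abs_le.1 (abs_norm_sub_norm_le (bt σ w) 1)
  rw [norm_one] at h1
  have h2 := Real.add_one_le_exp (2 * r)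
  have h3 := e2 (s := 2 * r) (by linarith [norm_nonneg w]) (by linarith)
  rw [show 2 * (2 * r) = 4 * r by ring] at h3
  constructor <;> linarith [h1.1, h1.2]

theorem bt_neg {σ r : ℝ} (h0 : 0 < σ) (h : σ ≤ 1 / 2) (r0 : 0 ≤ r) (r1 : r ≤ 1) :
    Real.exp (σ * r / 8) ≤ ‖bt σ (-(r : ℂ))‖ := by
  obtain ⟨a, b, c⟩ := rho_bd h0 h
  have hp := Real.exp_pos σ
  have : bt σ (-(r : ℂ)) = ((1 + Real.exp σ * r) / (1 + Real.exp (-σ) * r) : ℝ) := by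
    rw [bt]; push_cast; ring
  have hd : 0 < 1 + Real.exp (-σ) * r := by positivity
  rw [this, Complex.norm_real, Real.norm_of_nonneg (by positivity), le_div_iff₀ hd]
  have k : Real.exp (σ * r / 8) ≤ 1 + σ * r / 4 := by
    have := Real.abs_exp_sub_one_le (x := σ * r / 8)
      (by rw [abs_of_nonneg (by positivity)]; nlinarith)
    rw [abs_of_nonneg (a := σ * r / 8) (by positivity)] at this
    linarith [(abs_le.1 this).2]
  have k1 : 1 ≤ Real.exp σ := Real.one_le_exp h0.le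
  have k2 : (1 + σ * r / 4) * (1 + Real.exp (-σ) * r) ≤ 1 + Real.exp σ * r := by
    have : Real.exp (-σ) * r ≤ 1 := by nlinarith
    have k3 : σ * r / 4 * (1 + Real.exp (-σ) * r) ≤ σ * r / 4 * 2 :=
      mul_le_mul_of_nonneg_left (by linarith) (by positivity)
    nlinarith
  nlinarith

theorem bt_pos {σ r : ℝ} (h0 : 0 < σ) (h : σ ≤ 1 / 2) (r0 : 0 ≤ r) (r1 : r ≤ 1 / 2) :
    ‖bt σ (r : ℂ)‖ ≤ 1 := by
  obtain ⟨a, b, c⟩ := rho_bd h0 h
  have hp := Real.exp_pos σ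
  have : bt σ (r : ℂ) = ((1 - Real.exp σ * r) / (1 - Real.exp (-σ) * r) : ℝ) := by
    rw [bt]; push_cast; ring
  have hd : 0 < 1 - Real.exp (-σ) * r := by nlinarith
  have hn : 0 ≤ 1 - Real.exp σ * r := by nlinarith
  rw [this, Complex.norm_real, Real.norm_of_nonneg (by positivity), div_le_one hd]
  have k1 : 1 ≤ Real.exp σ := Real.one_le_exp h0.le
  nlinarith

theorem arg_r {z : ℂ} (hy : 0 < z.im) (hx : 0 < z.re) :
    arg z ≤ Real.pi / 2 ∧ arg z ≤ z.im / z.re := by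
  have h1 : arg z < Real.pi / 2 := arg_lt_pi_div_two_iff.2 (Or.inl hx)
  refine ⟨h1.le, ?_⟩
  rw [← tan_arg]
  exact Real.le_tan (arg_nonneg_iff.2 hy.le) h1

theorem arg_l {z : ℂ} (hy : 0 < z.im) (hx : z.re < 0) :
    Real.pi - arg z ≤ z.im / (-z.re) := by
  have h1 : Real.pi / 2 < arg z := by
    by_contra h
    rcases arg_le_pi_div_two_iff.1 (not_lt.1 h) with h | h <;> linarith
  have := Real.le_tan (x := Real.pi - arg z) (by linarith [arg_le_pi z]) (by linarith)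
  rwa [Real.tan_pi_sub, tan_arg, ← div_neg] at this

noncomputable def th (ω : ℝ) (z : ℂ) : ℂ := exp (I * z / ω)

noncomputable def Gm (σ ω t : ℝ) (z : ℂ) : ℂ :=
  bt σ (th ω z) * exp (I * (σ / Real.pi : ℝ) * log (z - t))

theorem norm_th (ω : ℝ) (z : ℂ) : ‖th ω z‖ = Real.exp (-(z.im / ω)) := by
  rw [th, norm_exp, div_ofReal_re]; simp [neg_div]

theorem th_le_one {ω : ℝ} (hω : 0 < ω) {z : ℂ} (hz : 0 < z.im) : ‖th ω z‖ ≤ 1 := by
  rw [norm_th, Real.exp_le_one_iff, neg_nonpos]; positivity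

theorem th_le {ω η : ℝ} (hω : 0 < ω) (hη : 0 < η) {z : ℂ} (hz : η ≤ z.im) :
    ‖th ω z‖ ≤ ω / η := by
  rw [norm_th, Real.exp_neg, inv_le_comm₀ (Real.exp_pos _) (by positivity), inv_div]
  have := Real.add_one_le_exp (z.im / ω)
  have : η / ω ≤ z.im / ω := by gcongr
  linarith

theorem th_sq {ω : ℝ} (z : ℂ) : 1 - ‖th ω z‖ ^ 2 ≤ 2 * (z.im / ω) := by
  rw [norm_th, ← Real.exp_nat_mul]
  have := Real.add_one_le_exp (((2 : ℕ) : ℝ) * -(z.im / ω))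
  push_cast at this ⊢
  linarith

theorem th_odd {ω : ℝ} (hω : 0 < ω) {z : ℂ} {k : ℕ} (hz : z.re = (2 * k + 1) * Real.pi * ω) :
    th ω z = -(Real.exp (-(z.im / ω)) : ℝ) := by
  have hω' : (ω : ℂ) ≠ 0 := by exact_mod_cast hω.ne'
  have : I * z / ω = ((-(z.im / ω) : ℝ) : ℂ) + (k * (2 * Real.pi * I) + Real.pi * I) := by
    conv_lhs => rw [← re_add_im z, hz]
    push_cast; field_simp; ring_nf; simp only [I_sq]; ring
  rw [th, this, exp_add, exp_add, exp_nat_mul_two_pi_mul_I, exp_pi_mul_I, ofReal_exp]; ring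

theorem th_even {ω : ℝ} (hω : 0 < ω) {z : ℂ} {k : ℕ} (hz : z.re = 2 * k * Real.pi * ω) :
    th ω z = (Real.exp (-(z.im / ω)) : ℝ) := by
  have hω' : (ω : ℂ) ≠ 0 := by exact_mod_cast hω.ne'
  have : I * z / ω = ((-(z.im / ω) : ℝ) : ℂ) + k * (2 * Real.pi * I) := by
    conv_lhs => rw [← re_add_im z, hz]
    push_cast; field_simp; ring_nf; simp only [I_sq]; ring
  rw [th, this, exp_add, exp_nat_mul_two_pi_mul_I, ofReal_exp]; ring

theorem norm_Gm (σ ω t : ℝ) (z : ℂ) :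
    ‖Gm σ ω t z‖ = ‖bt σ (th ω z)‖ * Real.exp (-(σ / Real.pi * arg (z - t))) := by
  rw [Gm, norm_mul, norm_exp]
  congr 2
  simp only [mul_re, mul_im, I_re, I_im, ofReal_re, ofReal_im, log_im]; ring

theorem Gm_ge {σ ω t a d : ℝ} {z : ℂ} (ha : Real.exp a ≤ ‖bt σ (th ω z)‖)
    (hd : σ / Real.pi * arg (z - t) ≤ d) : Real.exp (a - d) ≤ ‖Gm σ ω t z‖ := by
  rw [norm_Gm, sub_eq_add_neg a, Real.exp_add]
  exact mul_le_mul ha (Real.exp_le_exp.2 (by linarith)) (Real.exp_pos _).le (norm_nonneg _)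

theorem Gm_le {σ ω t a d : ℝ} {z : ℂ} (ha : ‖bt σ (th ω z)‖ ≤ Real.exp a)
    (hd : d ≤ σ / Real.pi * arg (z - t)) : ‖Gm σ ω t z‖ ≤ Real.exp (a - d) := by
  rw [norm_Gm, sub_eq_add_neg a, Real.exp_add]
  exact mul_le_mul ha (Real.exp_le_exp.2 (by linarith)) (Real.exp_pos _).le (Real.exp_pos _).le

theorem D0 {σ t : ℝ} (h0 : 0 < σ) {z : ℂ} (hz : 0 < z.im) : 0 ≤ σ / Real.pi * arg (z - t) :=
  mul_nonneg (by positivity) (arg_nonneg_iff.2 (by simpa using hz.le))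

theorem D1 {σ t : ℝ} (h0 : 0 < σ) (z : ℂ) : σ / Real.pi * arg (z - t) ≤ σ := by
  have := mul_le_mul_of_nonneg_left (arg_le_pi (z - t)) (a := σ / Real.pi) (by positivity)
  rwa [div_mul_cancel₀ _ Real.pi_pos.ne'] at this

theorem D2 {σ t : ℝ} (h0 : 0 < σ) {z : ℂ} (hz : 0 < z.im) (hx : t < z.re) :
    σ / Real.pi * arg (z - t) ≤ σ / 2 := by
  have := mul_le_mul_of_nonneg_left (arg_r (z := z - t) (by simpa using hz) (by simpa using hx)).1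
    (a := σ / Real.pi) (by positivity)
  have hp := Real.pi_pos
  rwa [show σ / Real.pi * (Real.pi / 2) = σ / 2 by field_simp] at this

theorem D3 {σ t e : ℝ} (h0 : 0 < σ) (he : 0 < e) {z : ℂ} (hz : 0 < z.im) (hx : t + e ≤ z.re) :
    σ / Real.pi * arg (z - t) ≤ σ / (3 * e) * z.im := by
  have h1 := (arg_r (z := z - t) (by simpa using hz) (by simp; linarith)).2
  simp only [sub_im, ofReal_im, sub_zero, sub_re, ofReal_re] at h1
  have h2 : z.im / (z.re - t) ≤ z.im / e := by gcongr; linarith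
  have h3 : σ / Real.pi ≤ σ / 3 := by gcongr; exact Real.pi_gt_three.le
  calc _ ≤ σ / Real.pi * (z.im / e) := mul_le_mul_of_nonneg_left (h1.trans h2) (by positivity)
    _ ≤ σ / 3 * (z.im / e) := by gcongr
    _ = _ := by field_simp

theorem D4 {σ t e : ℝ} (h0 : 0 < σ) (he : 0 < e) {z : ℂ} (hz : 0 < z.im) (hx : z.re + e ≤ t) :
    σ - σ / (3 * e) * z.im ≤ σ / Real.pi * arg (z - t) := by
  have h1 := arg_l (z := z - t) (by simpa using hz) (by simp; linarith)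
  simp only [sub_im, ofReal_im, sub_zero, sub_re, ofReal_re] at h1
  have h2 : z.im / -(z.re - t) ≤ z.im / e := by gcongr; linarith
  have h3 : σ / Real.pi ≤ σ / 3 := by gcongr; exact Real.pi_gt_three.le
  have hp := Real.pi_pos
  have : σ / Real.pi * (Real.pi - arg (z - t)) ≤ σ / (3 * e) * z.im :=
    calc _ ≤ σ / Real.pi * (z.im / e) := mul_le_mul_of_nonneg_left (h1.trans h2) (by positivity)
    _ ≤ σ / 3 * (z.im / e) := by gcongr
    _ = _ := by field_simp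
  rw [mul_sub, div_mul_cancel₀ _ hp.ne'] at this
  linarith

theorem Gm_diff {σ ω t : ℝ} (h0 : 0 < σ) (h : σ ≤ 1 / 2) (hω : 0 < ω) {z : ℂ} (hz : 0 < z.im) :
    DifferentiableAt ℂ (Gm σ ω t) z := by
  have h1 : DifferentiableAt ℂ (th ω) z := by unfold th; fun_prop
  have h2 : DifferentiableAt ℂ (fun z : ℂ => log (z - t)) z :=
    (differentiableAt_id.sub_const _).clog (Or.inr (by simpa using hz.ne'))
  have h3 : DifferentiableAt ℂ (fun z => bt σ (th ω z)) z := by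
    unfold bt
    exact ((h1.const_mul _).const_sub _).div ((h1.const_mul _).const_sub _)
      (norm_pos_iff.1 (den_pos h0 h (th_le_one hω hz)))
  exact h3.mul (h2.const_mul _).cexp

end Pool.Agent.H.Lev
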