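import Mathlib
set_option autoImplicit false
open Set Topology Filter Complex

namespace Pool.Agent.H.Lev

theorem cnt_of_loc {S : Set ℂ} (G : ℂ → ℂ) (h : ∀ z ∈ S, ∀ᶠ y in 𝓝[S] z, G y = G z) :
    (G '' S).Countable := by
  obtain ⟨t, ht, hc, hs⟩ := TopologicalSpace.countable_cover_nhdsWithin
    (f := fun z => {y | G y = G z}) (s := S) h
  refine (hc.image G).mono ?_
  rintro _ ⟨z, hz, rfl⟩
  obtain ⟨x, hx, hzx⟩ := mem_iUnion₂.1 (hs hz)
  exact ⟨x, hx, (hzx : G z = G x).symm⟩

theorem generic {g : ℂ → ℂ} (hg : DifferentiableOn ℂ g {z | 0 < z.im}) (a : ℝ) :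
    ∃ l ∈ Ioo a (a + 1), ∀ z : ℂ, 0 < z.im → ‖g z * exp (I * l * z)‖ = 1 →
      deriv (fun z => g z * exp (I * l * z)) z ≠ 0 := by
  have oH : IsOpen {z : ℂ | 0 < z.im} := isOpen_lt continuous_const continuous_im
  have ga : ∀ z : ℂ, 0 < z.im → AnalyticAt ℂ g z := fun z hz =>
    hg.analyticAt (oH.mem_nhds hz)
  set G : ℂ → ℂ := fun z => I * deriv g z / g z with hG
  have Ga : ∀ z : ℂ, 0 < z.im → g z ≠ 0 → AnalyticAt ℂ G z := fun z hz h0 =>
    (analyticAt_const.mul (ga z hz).deriv).div (ga z hz) h0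
  set S : Set ℂ := {z | 0 < z.im ∧ g z ≠ 0 ∧ (G z).im = 0 ∧ ‖g z * exp (I * G z * z)‖ = 1}
  have c1 : (G '' (S ∩ {z | deriv G z = 0})).Countable := by
    refine cnt_of_loc G fun z hz => ?_
    have hA := Ga z hz.1.1 hz.1.2.1
    rcases hA.deriv.eventually_eq_zero_or_eventually_ne_zero with h | h
    · obtain ⟨r, hr, hb⟩ := Metric.eventually_nhds_iff_ball.1 (h.and hA.eventually_analyticAt)
      have : ∀ y ∈ Metric.ball z r, G y = G z := fun y hy =>
        Metric.isOpen_ball.is_const_of_deriv_eq_zero (convex_ball z r).isPreconnected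
          (fun x hx => (hb x hx).2.differentiableAt.differentiableWithinAt)
          (fun x hx => (hb x hx).1) hy (Metric.mem_ball_self hr)
      exact eventually_nhdsWithin_of_eventually_nhds
        (mem_of_superset (Metric.ball_mem_nhds z hr) this)
    · rw [eventually_nhdsWithin_iff] at h ⊢
      filter_upwards [h] with y hy hyS
      by_cases hyz : y = z
      · rw [hyz]
      · exact absurd hyS.2 (hy hyz)
  have c2 : (G '' (S ∩ {z | deriv G z ≠ 0})).Countable := by
    refine cnt_of_loc G fun z hz => ?_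
    obtain ⟨⟨hz0, hg0, hi, hn⟩, hd⟩ := hz
    have hA := Ga z hz0 hg0
    have dG : HasDerivAt G (deriv G z) z := hA.differentiableAt.hasDerivAt
    have dg : HasDerivAt g (deriv g z) z := (ga z hz0).differentiableAt.hasDerivAt
    set R : ℂ → ℂ := fun y => g y * exp (I * G y * y) with hR
    have dR : HasDerivAt R (I * deriv G z * z * R z) z := by
      have h1 : HasDerivAt (fun y => I * G y * y) (I * deriv G z * z + I * G z * 1) z :=
        (dG.const_mul I).mul (hasDerivAt_id z)
      refine (dg.mul h1.cexp).congr_deriv ?_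
      simp only [hR, hG]
      field_simp
      ring_nf
      simp only [I_sq]
      ring
    set c := deriv G z
    let L : ℂ →L[ℝ] ℝ × ℝ :=
      ((2 : ℝ) • reCLM.comp ((ContinuousLinearMap.mul ℝ ℂ) (I * c * z))).prod
        (imCLM.comp ((ContinuousLinearMap.mul ℝ ℂ) c))
    have hn2 : (R z).re ^ 2 + (R z).im ^ 2 = 1 := by
      have : normSq (R z) = 1 := by rw [normSq_eq_norm_sq]; simp only [hR]; rw [hn]; norm_num
      rw [normSq_apply] at this; nlinarith
    have dF : HasFDerivAt (fun y => ((R y).re ^ 2 + (R y).im ^ 2, (G y).im)) L z := by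
      have r1 := (reCLM.hasFDerivAt.comp z (dR.hasFDerivAt.restrictScalars ℝ))
      have r2 := (imCLM.hasFDerivAt.comp z (dR.hasFDerivAt.restrictScalars ℝ))
      have r3 := (imCLM.hasFDerivAt.comp z (dG.hasFDerivAt.restrictScalars ℝ))
      refine (((r1.pow 2).add (r2.pow 2)).prodMk r3).congr_fderiv ?_
      refine ContinuousLinearMap.ext fun h => Prod.ext ?_ ?_
      · simp [L]
        linear_combination (2 * ((-(c.im * z.re) - c.re * z.im) * h.re -
          (c.re * z.re - c.im * z.im) * h.im)) * hn2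
      · simp [L]; ring
    have hinj : Function.Injective L := by
      rw [injective_iff_map_eq_zero]
      intro h hh
      have e1 := congrArg Prod.fst hh
      have e2 := congrArg Prod.snd hh
      simp [L] at e1 e2
      have : c * h = 0 := by
        apply Complex.ext
        · have : z.im * (c * h).re = 0 := by
            simp only [mul_re]
            linear_combination (-1 : ℝ) * e1 - z.re * e2
          exact (mul_eq_zero.1 this).resolve_left hz0.ne'
        · simpa using e2
      exact (mul_eq_zero.1 this).resolve_left hd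
    obtain ⟨K, -, hK⟩ := (L : ℂ →ₗ[ℝ] ℝ × ℝ).exists_antilipschitzWith
      (LinearMap.ker_eq_bot.2 hinj)
    have h := dF.eventually_ne (c := ((R z).re ^ 2 + (R z).im ^ 2, (G z).im)) ⟨K, hK⟩
    rw [eventually_nhdsWithin_iff] at h ⊢
    filter_upwards [h] with y hy hyS
    by_cases hyz : y = z
    · rw [hyz]
    · exfalso
      apply hy hyz
      have : normSq (R y) = 1 := by
        rw [normSq_eq_norm_sq]; simp only [hR]; rw [hyS.1.2.2.2]; norm_num
      rw [normSq_apply] at this
      refine Prod.ext ?_ ?_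
      · show (R y).re ^ 2 + (R y).im ^ 2 = (R z).re ^ 2 + (R z).im ^ 2
        rw [hn2]; nlinarith
      · show (G y).im = (G z).im
        rw [hyS.1.2.2.1, hi]
  have c3 : (re '' (G '' S)).Countable := by
    refine Countable.image ((c1.union c2).mono ?_) _
    rintro _ ⟨z, hz, rfl⟩
    by_cases h : deriv G z = 0
    · exact Or.inl ⟨z, ⟨hz, h⟩, rfl⟩
    · exact Or.inr ⟨z, ⟨hz, h⟩, rfl⟩
  obtain ⟨l, hl, hl2⟩ := (c3.dense_compl ℝ).inter_open_nonempty (Ioo a (a + 1)) isOpen_Ioo
    (nonempty_Ioo.2 (by linarith))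
  refine ⟨l, hl, fun z hz hn hd => hl2 ?_⟩
  have hg0 : g z ≠ 0 := by
    intro h; rw [h] at hn; simp at hn
  have dg : HasDerivAt g (deriv g z) z := (ga z hz).differentiableAt.hasDerivAt
  have h1 : HasDerivAt (fun y : ℂ => I * l * y) (I * l * 1) z := (hasDerivAt_id z).const_mul _
  have h2 := (dg.mul h1.cexp).deriv
  have h3 : deriv g z * exp (I * l * z) + g z * (exp (I * l * z) * (I * l * 1)) = 0 := by
    rw [← h2]; exact hd
  have h4 : G z = l := by
    simp only [hG]
    have he := exp_ne_zero (I * l * z)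
    have : deriv g z = -(g z * (I * l)) := by
      apply mul_right_cancel₀ he
      linear_combination h3
    rw [this]; field_simp; simp [I_sq]
  exact ⟨l, ⟨z, ⟨hz, hg0, by simp [h4], by rw [h4]; exact hn⟩, h4⟩, by simp⟩

end Pool.Agent.H.Lev
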