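import Mathlib
set_option autoImplicit false
open Set Topology Filter

namespace Pool.Agent.H.Lev

section
variable {X : Type} [MetricSpace X] [SimplyConnectedSpace X] [LocallyPathConnectedSpace X]

theorem unicoh {E F : Set X} (hE : IsClosed E) (hF : IsClosed F) (cE : IsPreconnected E)
    (cF : IsPreconnected F) (hU : E ∪ F = univ) : IsPreconnected (E ∩ F) := by
  classical
  rw [isPreconnected_iff_subset_of_disjoint_closed]
  intro u v hu hv hs hd
  by_contra hcon
  rw [not_or] at hcon
  obtain ⟨a, ha, hau⟩ := not_subset.1 hcon.1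
  obtain ⟨b, hb, hbv⟩ := not_subset.1 hcon.2
  have hav : a ∈ v := (hs ha).resolve_left hau
  have hbu : b ∈ u := (hs hb).resolve_right hbv
  have hdis : Disjoint (E ∩ F ∩ u) (E ∩ F ∩ v) := by
    rw [Set.disjoint_left]
    intro x hx hy
    have : x ∈ E ∩ F ∩ (u ∩ v) := ⟨hx.1, hx.2, hy.2⟩
    rw [hd] at this; exact this
  obtain ⟨τ, h0, h1, -⟩ := exists_continuous_zero_one_of_isClosed
    ((hE.inter hF).inter hu) ((hE.inter hF).inter hv) hdis
  let g : X → Circle := fun x => if x ∈ E then Circle.exp (Real.pi * τ x) else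
    Circle.exp (-(Real.pi * τ x))
  have gE : EqOn g (fun x => Circle.exp (Real.pi * τ x)) E := fun x hx => by simp [g, hx]
  have gF : EqOn g (fun x => Circle.exp (-(Real.pi * τ x))) F := by
    intro x hx
    by_cases hxE : x ∈ E
    · simp only [g, hxE, if_true]
      rcases hs ⟨hxE, hx⟩ with h | h
      · have : τ x = 0 := h0 ⟨⟨hxE, hx⟩, h⟩
        simp [this]
      · have : τ x = 1 := h1 ⟨⟨hxE, hx⟩, h⟩
        rw [this, mul_one, Circle.exp_eq_exp]
        exact ⟨1, by push_cast; ring⟩
    · simp [g, hxE]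
  have c1 : Continuous fun x => Real.pi * τ x := by fun_prop
  have c2 : Continuous fun x => -(Real.pi * τ x) := by fun_prop
  have gc : Continuous g := by
    rw [← continuousOn_univ, ← hU]
    refine ContinuousOn.union_of_isClosed ?_ ?_ hE hF
    · exact (Circle.exp.continuous.comp c1).continuousOn.congr gE
    · exact (Circle.exp.continuous.comp c2).continuousOn.congr gF
  have tb : τ b = 0 := h0 ⟨hb, hbu⟩
  have ta : τ a = 1 := h1 ⟨ha, hav⟩
  obtain ⟨h, ⟨hb0, hl⟩, -⟩ := Circle.isCoveringMap_exp.existsUnique_continuousMap_lifts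
    ⟨g, gc⟩ b 0 (by show _ = g b; rw [gE hb.1]; simp [tb])
  have e1 : EqOn h (fun x => Real.pi * τ x) E := by
    refine Circle.isCoveringMap_exp.eqOn_of_comp_eqOn cE h.continuous.continuousOn
      c1.continuousOn ?_ hb.1 (by simp [hb0, tb])
    intro x hx
    have := congrFun hl x
    simp only [Function.comp_apply] at this ⊢
    rw [this]; exact gE hx
  have e2 : EqOn h (fun x => -(Real.pi * τ x)) F := by
    refine Circle.isCoveringMap_exp.eqOn_of_comp_eqOn cF h.continuous.continuousOn
      c2.continuousOn ?_ hb.2 (by simp [hb0, tb])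
    intro x hx
    have := congrFun hl x
    simp only [Function.comp_apply] at this ⊢
    rw [this]; exact gF hx
  have f1 := e1 ha.1
  have f2 := e2 ha.2
  simp only [ta] at f1 f2
  have := Real.pi_pos
  linarith

omit [SimplyConnectedSpace X] in
theorem front_comp {W : Set X} (hW : IsOpen W) (q z : X)
    (hz : z ∈ closure (connectedComponentIn W q)) (hzW : z ∈ W) :
    z ∈ connectedComponentIn W q := by
  have ho : IsOpen (connectedComponentIn W z) := hW.connectedComponentIn
  obtain ⟨y, hy1, hy2⟩ := mem_closure_iff.1 hz _ ho (mem_connectedComponentIn hzW)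
  rw [connectedComponentIn_eq hy2, ← connectedComponentIn_eq hy1]
  exact mem_connectedComponentIn hzW

theorem sepX (u : X → ℝ) (hu : Continuous u) {P Q : Set X} (hP : IsPreconnected P)
    (hQ : IsPreconnected Q) (uP : ∀ z ∈ P, 0 < u z) (uQ : ∀ z ∈ Q, u z < 0) {p q : X}
    (hp : p ∈ P) (hq : q ∈ Q) :
    ∃ Γ : Set X, IsPreconnected Γ ∧ (∀ z ∈ Γ, u z = 0) ∧
      ∀ C : Set X, IsPreconnected C → (C ∩ P).Nonempty → (C ∩ Q).Nonempty →
        (C ∩ Γ).Nonempty := by
  have oW : IsOpen {z | 0 < u z} := isOpen_lt continuous_const hu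
  set A := connectedComponentIn {z | 0 < u z} p with hA
  have oA : IsOpen A := oW.connectedComponentIn
  have PA : P ⊆ A := hP.subset_connectedComponentIn hp uP
  have clA : ∀ z ∈ closure A, 0 ≤ u z := by
    have : closure A ⊆ {z | 0 ≤ u z} :=
      closure_minimal (fun z hz => by
        have : 0 < u z := connectedComponentIn_subset {z | 0 < u z} p hz
        exact this.le)
        (isClosed_le continuous_const hu)
    exact fun z hz => this hz
  have oV : IsOpen (closure A)ᶜ := isClosed_closure.isOpen_compl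
  set B := connectedComponentIn (closure A)ᶜ q with hB
  have oB : IsOpen B := oV.connectedComponentIn
  have QB : Q ⊆ B := hQ.subset_connectedComponentIn hq
    fun z hz hc => absurd (clA z hc) (not_le.2 (uQ z hz))
  have BA : B ⊆ (closure A)ᶜ := connectedComponentIn_subset _ _
  have cA : IsPreconnected (closure A) := isPreconnected_connectedComponentIn.closure
  have pA : p ∈ closure A := subset_closure (PA hp)
  have cF : IsPreconnected Bᶜ := by
    refine isPreconnected_of_forall p fun z hz => ?_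
    by_cases hzA : z ∈ closure A
    · exact ⟨closure A, fun y hy hb => BA hb hy, pA, hzA, cA⟩
    · set D := connectedComponentIn (closure A)ᶜ z with hD
      have zD : z ∈ D := mem_connectedComponentIn hzA
      have oD : IsOpen D := oV.connectedComponentIn
      have DB : closure D ⊆ Bᶜ := by
        refine closure_minimal (fun y hy hb => hz ?_) oB.isClosed_compl
        rw [hB, connectedComponentIn_eq hb, ← connectedComponentIn_eq hy]
        exact zD
      have hm : (closure A ∩ closure D).Nonempty := by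
        by_contra hne
        have hcl : IsClosed D := by
          refine isClosed_of_closure_subset fun y hy => ?_
          exact front_comp oV z y hy fun hyA => hne ⟨y, hyA, hy⟩
        have := (IsClopen.eq_univ ⟨hcl, oD⟩ ⟨z, zD⟩)
        have hpD : p ∈ D := this ▸ mem_univ p
        exact connectedComponentIn_subset _ _ hpD pA
      obtain ⟨y, hy1, hy2⟩ := hm
      refine ⟨closure A ∪ closure D, ?_, Or.inl pA, Or.inr (subset_closure zD), ?_⟩
      · exact union_subset (fun y hy hb => BA hb hy) DB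
      · exact cA.union y hy1 hy2 isPreconnected_connectedComponentIn.closure
  refine ⟨closure B ∩ Bᶜ, unicoh isClosed_closure oB.isClosed_compl
    isPreconnected_connectedComponentIn.closure cF ?_, ?_, ?_⟩
  · refine eq_univ_of_forall fun z => ?_
    by_cases h : z ∈ B
    · exact Or.inl (subset_closure h)
    · exact Or.inr h
  · rintro z ⟨h1, h2⟩
    have zA : z ∈ closure A := by
      by_contra h
      exact h2 (front_comp oV q z h1 h)
    refine le_antisymm (not_lt.1 fun hpos => ?_) (clA z zA)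
    have : z ∈ A := front_comp oW p z zA hpos
    obtain ⟨y, hy1, hy2⟩ := mem_closure_iff.1 h1 A oA this
    exact BA hy2 (subset_closure hy1)
  · rintro C hC ⟨a, haC, haP⟩ ⟨b, hbC, hbQ⟩
    by_contra hne
    have hsub : C ⊆ B ∪ (closure B)ᶜ := fun z hz => by
      by_cases h : z ∈ B
      · exact Or.inl h
      · exact Or.inr fun hc => hne ⟨z, hz, hc, h⟩
    have haB : a ∉ B := fun h => BA h (subset_closure (PA haP))
    obtain ⟨y, -, hy1, hy2⟩ := hC B (closure B)ᶜ oB isClosed_closure.isOpen_compl hsub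
      ⟨b, hbC, QB hbQ⟩ ⟨a, haC, (hsub haC).resolve_left haB⟩
    exact hy2 (subset_closure hy1)
end

theorem sep {U : Set ℂ} (hU : IsOpen U) (hc : Convex ℝ U) (u : ℂ → ℝ) (hu : ContinuousOn u U)
    {P Q : Set ℂ} (hP : IsPreconnected P) (hQ : IsPreconnected Q) (PU : P ⊆ U) (QU : Q ⊆ U)
    (uP : ∀ z ∈ P, 0 < u z) (uQ : ∀ z ∈ Q, u z < 0) {p q : ℂ} (hp : p ∈ P) (hq : q ∈ Q) :
    ∃ Γ ⊆ U, IsPreconnected Γ ∧ (∀ z ∈ Γ, u z = 0) ∧
      ∀ C ⊆ U, IsPreconnected C → (C ∩ P).Nonempty → (C ∩ Q).Nonempty →
        (C ∩ Γ).Nonempty := by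
  haveI : ContractibleSpace U := hc.contractibleSpace ⟨p, PU hp⟩
  haveI : LocallyPathConnectedSpace U := hU.locallyPathConnectedSpace
  have ind : IsInducing (Subtype.val : U → ℂ) := IsInducing.subtypeVal
  have pre : ∀ S ⊆ U, IsPreconnected S → IsPreconnected ((Subtype.val : U → ℂ) ⁻¹' S) := by
    intro S hS h
    rw [← ind.isPreconnected_image, Subtype.image_preimage_coe, inter_eq_right.2 hS]
    exact h
  obtain ⟨Γ, h1, h2, h3⟩ := sepX (X := U) (fun z => u z) (continuousOn_iff_continuous_restrict.1 hu)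
    (pre P PU hP) (pre Q QU hQ) (fun z hz => uP z hz) (fun z hz => uQ z hz)
    (p := ⟨p, PU hp⟩) (q := ⟨q, QU hq⟩) hp hq
  refine ⟨Subtype.val '' Γ, ?_, ind.isPreconnected_image.2 h1, ?_, ?_⟩
  · rintro _ ⟨z, -, rfl⟩; exact z.2
  · rintro _ ⟨z, hz, rfl⟩; exact h2 z hz
  · rintro C hC cC ⟨a, haC, haP⟩ ⟨b, hbC, hbQ⟩
    obtain ⟨z, hz1, hz2⟩ := h3 _ (pre C hC cC) ⟨⟨a, hC haC⟩, haC, haP⟩ ⟨⟨b, hC hbC⟩, hbC, hbQ⟩
    exact ⟨z, hz1, z, hz2, rfl⟩

end Pool.Agent.H.Lev
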