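import Pool.Agent.H.MP_0013e0_an.Sgn
import Pool.Agent.H.MP_0013e0_an.Sep
import Pool.Agent.H.MP_0013e0_an.Gen
set_option autoImplicit false
open Set Topology Filter Complex MeasureTheory

namespace Pool.Agent.H.Lev
variable {w : ℕ → ℝ}

theorem cvx (A B : Set ℝ) (hA : Convex ℝ A) (hB : Convex ℝ B) :
    IsPreconnected {z : ℂ | z.re ∈ A ∧ z.im ∈ B} :=
  ((hA.linear_preimage reLm).inter (hB.linear_preimage imLm)).isPreconnected

theorem comp_step {F s : Set ℂ} {p a : ℂ} (hs : IsPreconnected s) (hF : s ⊆ F) (ha : a ∈ s)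
    (hp : a ∈ connectedComponentIn F p) : s ⊆ connectedComponentIn F p := by
  rw [connectedComponentIn_eq hp]
  exact hs.subset_connectedComponentIn ha hF

theorem long (hw : Par w) {l : ℝ} (h6 : 6 ≤ l) (h7 : l ≤ 7) :
    ∃ Γ : Set ℂ, IsPreconnected Γ ∧ (∀ z ∈ Γ, 0 < z.im ∧ ‖ff w l z‖ = 1) ∧
      Measure.hausdorffMeasure 1 (Γ ∩ Metric.closedBall 0 2) = ⊤ := by
  have oH : IsOpen {z : ℂ | 0 < z.im} := isOpen_lt continuous_const continuous_im
  have cH : Convex ℝ {z : ℂ | 0 < z.im} := (convex_Ioi (0 : ℝ)).linear_preimage imLm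
  have hu : ContinuousOn (fun z => ‖ff w l z‖ - 1) {z : ℂ | 0 < z.im} := by
    refine ContinuousOn.sub (ContinuousOn.norm ?_) continuousOn_const
    exact (gg_diff hw).continuousOn.mul (by fun_prop)
  set F : Set ℂ := {z | 0 < z.im ∧ 1 < ‖ff w l z‖}
  set F' : Set ℂ := {z | 0 < z.im ∧ ‖ff w l z‖ < 1}
  set p : ℂ := ⟨1, eta 0 (w 0)⟩
  set q : ℂ := ⟨0, 1⟩
  let Hn : ℕ → Set ℂ := fun n => {z | z.re ∈ Ioi (tt n) ∧ z.im ∈ ({eta n (w n)} : Set ℝ)}
  have HF : ∀ n, Hn n ⊆ F := fun n z hz => by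
    have h2 : z.im = eta n (w n) := hz.2
    exact ⟨h2 ▸ hw.eta_pos n, posH hw h7 le_rfl h2.ge h2.le hz.1 fun m h h' => by omega⟩
  have cHn : ∀ n, IsPreconnected (Hn n) := fun n => cvx _ _ (convex_Ioi _) (convex_singleton _)
  have pH : p ∈ Hn 0 := ⟨by show tt 0 < 1; linarith [tt_le 0], rfl⟩
  have HP : ∀ n, Hn n ⊆ connectedComponentIn F p := by
    intro n
    induction n with
    | zero => exact (cHn 0).subset_connectedComponentIn pH (HF 0)
    | succ n ih =>
      obtain ⟨k, hk⟩ := exists_nat_gt (tt n / (Real.pi * w (n + 1)))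
      have hp := mul_pos Real.pi_pos (hw.pos (n + 1))
      rw [div_lt_iff₀ hp] at hk
      set e := (2 * k + 1) * Real.pi * w (n + 1) with he
      have het : tt n < e := by
        have : (0 : ℝ) ≤ k := Nat.cast_nonneg k
        rw [he, mul_assoc]; nlinarith
      have hV : {z : ℂ | z.re ∈ ({e} : Set ℝ) ∧ z.im ∈ Icc (eta (n + 1) (w (n + 1))) (eta n (w n))}
          ⊆ connectedComponentIn F p := by
        refine comp_step (cvx _ _ (convex_singleton _) (convex_Icc _ _)) ?_ (a := ⟨e, eta n (w n)⟩)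
          ⟨rfl, hw.eta_succ n, le_rfl⟩ (ih ⟨het, rfl⟩)
        rintro z ⟨h1, h2, h3⟩
        have h1 : z.re = e := h1
        have hz := (hw.eta_pos _).trans_le h2
        refine ⟨hz, posH hw h7 (Nat.le_succ n) h2 h3 (h1 ▸ het) fun m h h' => ?_⟩
        obtain rfl : m = n + 1 := by omega
        rw [th_odd (hw.pos _) h1]
        refine le_trans (Real.one_le_exp ?_) (bt_neg (sg_pos _) (sg_le _) (Real.exp_pos _).le
          (Real.exp_le_one_iff.2 (by have := hw.pos (n + 1); rw [neg_nonpos]; positivity)))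
        have := sg_pos (n + 1); positivity
      refine comp_step (cHn _) (HF _) (a := ⟨e, eta (n + 1) (w (n + 1))⟩)
        ⟨(tt_anti (Nat.le_succ n)).trans_lt het, rfl⟩ (hV ⟨rfl, le_rfl, hw.eta_succ n⟩)
  have TP : ∀ n k : ℕ, ∀ z : ℂ, z.re = (2 * k + 1) * Real.pi * w n → 5 / 4 * tt n ≤ z.re →
      w n ≤ z.im → z.im ≤ TT n * w n → z ∈ connectedComponentIn F p := by
    intro n k z h1 h2 h3 h4
    have := comp_step (F := F) (p := p) (cvx {z.re} (Icc (eta n (w n)) (TT n * w n))
      (convex_singleton _) (convex_Icc _ _)) ?_ (a := ⟨z.re, eta n (w n)⟩)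
      ⟨rfl, le_rfl, (hw.eta_le n).trans (h3.trans h4)⟩
      (HP n ⟨by show tt n < z.re; linarith [tt_pos n], rfl⟩)
    · exact this ⟨rfl, (hw.eta_le n).trans h3, h4⟩
    · rintro y ⟨k1, k2, k3⟩
      have k1 : y.re = z.re := k1
      exact ⟨(hw.eta_pos _).trans_le k2, posT hw h7 k2 k3 (k1 ▸ h2) (k1 ▸ h1)⟩
  have top : {z : ℂ | z.re ∈ (univ : Set ℝ) ∧ z.im ∈ ({1} : Set ℝ)} ⊆ F' := by
    rintro z ⟨-, h⟩
    have h : z.im = 1 := h
    exact ⟨by rw [h]; norm_num, ff_lt (gg_bd hw (by rw [h]; norm_num)) (by rw [h]; linarith)⟩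
  have qT : q ∈ {z : ℂ | z.re ∈ (univ : Set ℝ) ∧ z.im ∈ ({1} : Set ℝ)} := ⟨trivial, rfl⟩
  have TQ : ∀ n k : ℕ, ∀ z : ℂ, z.re = 2 * k * Real.pi * w n → z.re ≤ 7 / 4 * tt n →
      w n ≤ z.im → z ∈ connectedComponentIn F' q := by
    intro n k z h1 h2 h3
    have := comp_step (F := F') (p := q) (cvx {z.re} (Ici (w n))
      (convex_singleton _) (convex_Ici _)) ?_ (a := ⟨z.re, 1⟩)
      ⟨rfl, by show w n ≤ 1; linarith [hw.le1 n]⟩
      ((cvx _ _ convex_univ (convex_singleton _)).subset_connectedComponentIn qT top ⟨trivial, rfl⟩)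
    · exact this ⟨rfl, h3⟩
    · rintro y ⟨k1, k2⟩
      have k1 : y.re = z.re := k1
      exact ⟨(hw.pos _).trans_le k2, negT hw h6 k2 (k1 ▸ h2) (k1 ▸ h1)⟩
  obtain ⟨Γ, g1, g2, g3, g4⟩ := sep oH cH _ hu (P := connectedComponentIn F p)
    (Q := connectedComponentIn F' q) isPreconnected_connectedComponentIn
    isPreconnected_connectedComponentIn
    (fun z hz => (connectedComponentIn_subset _ _ hz).1)
    (fun z hz => (connectedComponentIn_subset _ _ hz).1)
    (fun z hz => sub_pos.2 (connectedComponentIn_subset _ _ hz).2)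
    (fun z hz => sub_neg.2 (connectedComponentIn_subset _ _ hz).2)
    (mem_connectedComponentIn (HF 0 pH)) (mem_connectedComponentIn (top qT))
  refine ⟨Γ, g2, fun z hz => ⟨g1 hz, sub_eq_zero.1 (g3 z hz)⟩, ?_⟩
  set μ : Measure ℂ := Measure.hausdorffMeasure 1
  set B := Γ ∩ Metric.closedBall 0 2
  have key : ∀ n : ℕ, ENNReal.ofReal (2 ^ n / 64) ≤ μ B := by
    intro n
    have wp := hw.pos n
    have tp := tt_pos n
    have ws := hw.sm n
    have pi3 := Real.pi_gt_three
    have pi4 := Real.pi_lt_d2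
    set k₀ := ⌈5 / 4 * tt n / (2 * Real.pi * w n)⌉₊
    set N := ⌊tt n / (16 * w n)⌋₊
    have a1 : 5 / 4 * tt n ≤ k₀ * (2 * Real.pi * w n) := by
      rw [← div_le_iff₀ (by positivity)]; exact Nat.le_ceil _
    have a2 : k₀ * (2 * Real.pi * w n) ≤ 5 / 4 * tt n + 2 * Real.pi * w n := by
      have := (Nat.ceil_lt_add_one (a := 5 / 4 * tt n / (2 * Real.pi * w n)) (by positivity)).le
      have := mul_le_mul_of_nonneg_right this (show 0 ≤ 2 * Real.pi * w n by positivity)
      rwa [add_mul, div_mul_cancel₀ _ (by positivity), one_mul] at this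
    have a3 : N * (16 * w n) ≤ tt n := by
      rw [← le_div_iff₀ (by positivity)]; exact Nat.floor_le (by positivity)
    have a4 : tt n ≤ N * (32 * w n) := by
      have := (Nat.lt_floor_add_one (tt n / (16 * w n))).le
      rw [div_le_iff₀ (by positivity)] at this
      nlinarith
    have hT : TT n * w n ≤ 1 := by
      have c2 := hw.c2 n
      have hS : 0 ≤ ∑ m ∈ Finset.range n, kap m (w m) :=
        Finset.sum_nonneg fun m _ => (hw.kap_pos m).le
      have := tau_le n; have := sg_le n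
      have : 0 ≤ TT n * w n := mul_nonneg (by linarith [TT_ge n]) wp.le
      nlinarith
    let S : ℕ → Set ℂ := fun k =>
      {z | z.re ∈ Icc (2 * k * Real.pi * w n) ((2 * k + 1) * Real.pi * w n)}
    have mS : ∀ k, MeasurableSet (S k) := fun k =>
      (isClosed_Icc.preimage continuous_re).measurableSet
    have each : ∀ j < N, ENNReal.ofReal (4 ^ n * w n) ≤ μ (S (k₀ + j) ∩ B) := by
      intro j hj
      have hj' : (j : ℝ) + 1 ≤ N := by exact_mod_cast hj
      have j0 : (0 : ℝ) ≤ j := Nat.cast_nonneg j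
      have b1 : 5 / 4 * tt n ≤ 2 * ((k₀ + j : ℕ) : ℝ) * Real.pi * w n := by
        push_cast
        have : 0 ≤ j * (Real.pi * w n) := by positivity
        nlinarith
      have b0 : 2 * ((k₀ + j : ℕ) : ℝ) * Real.pi * w n ≤
          (2 * ((k₀ + j : ℕ) : ℝ) + 1) * Real.pi * w n := by gcongr; linarith
      have b2 : (2 * ((k₀ + j : ℕ) : ℝ) + 1) * Real.pi * w n ≤ 7 / 4 * tt n := by
        push_cast
        have c1 : (j + 1) * (Real.pi * w n) ≤ N * (3.15 * w n) := by gcongr
        have c2 : Real.pi * w n ≤ 3.15 * w n := by gcongr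
        nlinarith
      have sub : Icc (w n) (TT n * w n) ⊆ im '' (S (k₀ + j) ∩ B) := by
        intro y hy
        obtain ⟨z, ⟨z1, z2⟩, z3⟩ := g4 {z : ℂ | z.re ∈ Icc (2 * ((k₀ + j : ℕ) : ℝ) * Real.pi * w n)
          ((2 * ((k₀ + j : ℕ) : ℝ) + 1) * Real.pi * w n) ∧ z.im ∈ ({y} : Set ℝ)}
          (fun z hz => by
            have : z.im = y := hz.2
            show 0 < z.im
            linarith [hy.1])
          (cvx _ _ (convex_Icc _ _) (convex_singleton _))
          ⟨⟨_, y⟩, ⟨⟨b0, le_rfl⟩, rfl⟩, TP n (k₀ + j) _ rfl (b1.trans b0) hy.1 hy.2⟩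
          ⟨⟨_, y⟩, ⟨⟨le_rfl, b0⟩, rfl⟩, TQ n (k₀ + j) _ rfl (b0.trans b2) hy.1⟩
        have z2 : z.im = y := z2
        refine ⟨z, ⟨z1, z3, ?_⟩, z2⟩
        rw [mem_closedBall_zero_iff]
        refine (norm_le_abs_re_add_abs_im z).trans ?_
        rw [abs_of_nonneg (by linarith [z1.1]), abs_of_nonneg (by linarith [hy.1])]
        linarith [z1.2, hy.2, tt_le n]
      have lip : LipschitzWith 1 im := by
        refine LipschitzWith.of_dist_le_mul fun a b => ?_
        rw [Real.dist_eq, dist_eq_norm, ← sub_im]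
        simpa using abs_im_le_norm (a - b)
      have := (measure_mono sub).trans (lip.hausdorffMeasure_image_le zero_le_one _)
      rw [hausdorffMeasure_real, Real.volume_Icc] at this
      simp only [ENNReal.coe_one, ENNReal.one_rpow, one_mul] at this
      refine le_trans (le_of_eq ?_) this
      unfold TT; congr 1; ring
    have disj : ((Finset.range N : Finset ℕ) : Set ℕ).PairwiseDisjoint fun j => S (k₀ + j) := by
      have aux : ∀ i j : ℕ, i < j → Disjoint (S (k₀ + i)) (S (k₀ + j)) := by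
        intro i j hij
        rw [Set.disjoint_left]
        intro z h1 h2
        have h1 := h1.2
        have h2 := h2.1
        have : (i : ℝ) + 1 ≤ j := by exact_mod_cast hij
        push_cast at h1 h2
        have hp : 0 < Real.pi * w n := by positivity
        nlinarith
      intro i _ j _ hij
      rcases lt_or_gt_of_ne hij with h | h
      · exact aux i j h
      · exact (aux j i h).symm
    have s1 := measure_biUnion_finset (μ := μ.restrict B) disj fun j _ => mS _
    have s2 : μ.restrict B (⋃ j ∈ Finset.range N, S (k₀ + j)) ≤ μ B := by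
      refine (measure_mono (subset_univ _)).trans ?_
      rw [Measure.restrict_apply_univ]
    refine le_trans ?_ (s1 ▸ s2)
    have s3 : ∑ j ∈ Finset.range N, ENNReal.ofReal (4 ^ n * w n) ≤
        ∑ j ∈ Finset.range N, μ.restrict B (S (k₀ + j)) :=
      Finset.sum_le_sum fun j hj => by
        rw [Measure.restrict_apply (mS _)]; exact each j (by simpa using hj)
    refine le_trans ?_ s3
    rw [Finset.sum_const, Finset.card_range, nsmul_eq_mul, ← ENNReal.ofReal_natCast,
      ← ENNReal.ofReal_mul (Nat.cast_nonneg _)]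
    refine ENNReal.ofReal_le_ofReal ?_
    have e1 : (4 : ℝ) ^ n * tt n = 2 ^ n / 2 := by
      unfold tt
      rw [← mul_div_assoc, ← mul_pow]; norm_num
    have : (0 : ℝ) < 4 ^ n := by positivity
    nlinarith
  by_contra hne
  obtain ⟨n, hn⟩ := pow_unbounded_of_one_lt (64 * (μ B).toReal) (show (1 : ℝ) < 2 by norm_num)
  have := key n
  rw [ENNReal.ofReal_le_iff_le_toReal hne] at this
  linarith

end Pool.Agent.H.Lev
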