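import Pool.Agent.H.MP_0013e0_an.Blk
set_option autoImplicit false
open Set Topology Filter Complex

namespace Pool.Agent.H.Lev

noncomputable def sg (m : ℕ) : ℝ := (1 / 8) ^ m / 2
noncomputable def tt (m : ℕ) : ℝ := (1 / 2) ^ m / 2
noncomputable def TT (m : ℕ) : ℝ := 4 ^ m + 1
noncomputable def tau (m : ℕ) : ℝ := sg m * Real.exp (-TT m) / 8
noncomputable def kap (m : ℕ) (x : ℝ) : ℝ := 8 / (sg m * x)
noncomputable def eta (m : ℕ) (x : ℝ) : ℝ := x * sg m ^ 2 / 100
noncomputable def del (m : ℕ) (x : ℝ) : ℝ := x * tau m / 100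

theorem sg_pos (m : ℕ) : 0 < sg m := by unfold sg; positivity
theorem sg_le (m : ℕ) : sg m ≤ 1 / 2 := by
  unfold sg; have : ((1 : ℝ) / 8) ^ m ≤ 1 := pow_le_one₀ (by norm_num) (by norm_num); linarith
theorem sg_succ (m : ℕ) : sg (m + 1) = sg m / 8 := by unfold sg; ring
theorem tt_pos (m : ℕ) : 0 < tt m := by unfold tt; positivity
theorem tt_le (m : ℕ) : tt m ≤ 1 / 2 := by
  unfold tt; have : ((1 : ℝ) / 2) ^ m ≤ 1 := pow_le_one₀ (by norm_num) (by norm_num); linarith
theorem tt_succ (m : ℕ) : tt (m + 1) = tt m / 2 := by unfold tt; ring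
theorem tt_anti : Antitone tt := antitone_nat_of_succ_le fun m => by
  rw [tt_succ]; linarith [tt_pos m]
theorem sg_anti : Antitone sg := antitone_nat_of_succ_le fun m => by
  rw [sg_succ]; linarith [sg_pos m]
theorem sg_tt (m : ℕ) : sg m = (1 / 4) ^ m * tt m := by
  unfold sg tt; rw [show (1 / 8 : ℝ) = 1 / 4 * (1 / 2) by norm_num, mul_pow]; ring
theorem TT_ge (m : ℕ) : 1 ≤ TT m := by unfold TT; linarith [pow_pos (show (0 : ℝ) < 4 by norm_num) m]
theorem tau_pos (m : ℕ) : 0 < tau m := by unfold tau; have := sg_pos m; positivity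
theorem tau_le (m : ℕ) : tau m ≤ sg m := by
  unfold tau
  have : Real.exp (-TT m) ≤ 1 := Real.exp_le_one_iff.2 (by linarith [TT_ge m])
  have := sg_pos m
  nlinarith

structure Par (w : ℕ → ℝ) : Prop where
  pos : ∀ n, 0 < w n
  half : ∀ n, w (n + 1) ≤ w n / 2
  sm : ∀ n, w n ≤ tt n / 100
  c1 : ∀ n, 8 * w (n + 1) ≤ eta n (w n) * del n (w n)
  c2 : ∀ n, (∑ m ∈ Finset.range n, kap m (w m) + 11) * (TT n * w n) ≤ tau n / 3

theorem kap_sum {w : ℕ → ℝ} (pos : ∀ n, 0 < w n) (half : ∀ n, w (n + 1) ≤ w n / 2) (n : ℕ) :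
    ∑ m ∈ Finset.range (n + 1), kap m (w m) ≤ 2 * kap n (w n) := by
  induction n with
  | zero =>
    have : 0 ≤ kap 0 (w 0) := by unfold kap; have := sg_pos 0; have := pos 0; positivity
    simp; linarith
  | succ n ih =>
    rw [Finset.sum_range_succ]
    have : 2 * kap n (w n) ≤ kap (n + 1) (w (n + 1)) := by
      unfold kap
      have h1 := sg_pos n; have h2 := pos n; have h3 := pos (n + 1); have h4 := half n
      rw [sg_succ, ← mul_div_assoc, div_le_div_iff₀ (by positivity) (by positivity)]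
      nlinarith [mul_pos h1 h2]
    linarith

noncomputable def ww : ℕ → ℝ
  | 0 => min (tau 0 / (33 * TT 0)) (tt 0 / 100)
  | n + 1 => min (min (ww n / 2) (eta n (ww n) * del n (ww n) / 8))
      (min (tau (n + 1) / (3 * (2 * kap n (ww n) + 11) * TT (n + 1))) (tt (n + 1) / 100))

theorem ww_pos (n : ℕ) : 0 < ww n := by
  induction n with
  | zero => have := tau_pos 0; have := TT_ge 0; have := tt_pos 0; unfold ww; positivity
  | succ n ih =>
    have := tau_pos (n + 1); have := TT_ge (n + 1); have := tt_pos (n + 1); have := sg_pos n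
    have := tau_pos n
    unfold ww eta del kap; positivity

theorem par_ww : Par ww := by
  have half : ∀ n, ww (n + 1) ≤ ww n / 2 := fun n => by
    rw [ww]; exact (min_le_left _ _).trans (min_le_left _ _)
  refine ⟨ww_pos, half, fun n => ?_, fun n => ?_, fun n => ?_⟩
  · cases n with
    | zero => rw [ww]; exact min_le_right _ _
    | succ n => rw [ww]; exact (min_le_right _ _).trans (min_le_right _ _)
  · have : ww (n + 1) ≤ eta n (ww n) * del n (ww n) / 8 := by
      rw [ww]; exact (min_le_left _ _).trans (min_le_right _ _)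
    linarith
  · cases n with
    | zero =>
      have h : ww 0 ≤ tau 0 / (33 * TT 0) := by rw [ww]; exact min_le_left _ _
      have := TT_ge 0
      rw [le_div_iff₀ (by positivity)] at h
      simp only [Finset.range_zero, Finset.sum_empty]
      linarith
    | succ n =>
      have h : ww (n + 1) ≤ tau (n + 1) / (3 * (2 * kap n (ww n) + 11) * TT (n + 1)) := by
        rw [ww]; exact (min_le_right _ _).trans (min_le_left _ _)
      have h1 := TT_ge (n + 1)
      have h2 : 0 < kap n (ww n) := by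
        unfold kap; have := sg_pos n; have := ww_pos n; positivity
      rw [le_div_iff₀ (by positivity)] at h
      have h3 := kap_sum ww_pos half n
      have h4 : 0 ≤ TT (n + 1) * ww (n + 1) := mul_nonneg (by linarith) (ww_pos _).le
      nlinarith

noncomputable def GG (w : ℕ → ℝ) (m : ℕ) (z : ℂ) : ℂ := Gm (sg m) (w m) (tt m) z

noncomputable def gg (w : ℕ → ℝ) (z : ℂ) : ℂ := ∏' m, (1 + (GG w m z - 1))

theorem conv {w : ℕ → ℝ} (hw : Par w) {z₀ : ℂ} (hz : 0 < z₀.im) :
    TendstoLocallyUniformlyOn (fun M z => ∏ m ∈ Finset.range M, GG w m z) (gg w) atTop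
      (Metric.ball z₀ (z₀.im / 2)) := by
  set η := z₀.im / 2
  have hη : 0 < η := by positivity
  have him : ∀ z ∈ Metric.closedBall z₀ η, η ≤ z.im := fun z h => by
    have h1 := abs_im_le_norm (z - z₀)
    rw [Metric.mem_closedBall, dist_eq_norm] at h
    rw [sub_im] at h1
    have := (abs_le.1 (h1.trans h)).1
    simp only [η] at this ⊢; linarith
  obtain ⟨C, hC⟩ := ((isCompact_closedBall z₀ η).prod (isCompact_Icc (a := (0 : ℝ)) (b := 1))).exists_bound_of_continuousOn
    (f := fun p : ℂ × ℝ => log (p.1 - p.2)) (by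
      intro p hp
      refine ContinuousAt.continuousWithinAt ?_
      refine ContinuousAt.clog (by fun_prop) (Or.inr ?_)
      have := him _ hp.1
      simp; linarith)
  have hC0 : 0 ≤ C := (norm_nonneg _).trans
    (hC (z₀, 0) ⟨Metric.mem_closedBall_self hη.le, by simp⟩)
  have s1 : Summable fun m => w m := by
    refine Summable.of_nonneg_of_le (fun m => (hw.pos m).le) (fun m => ?_) summable_geometric_two
    have := hw.sm m
    unfold tt at this
    have : (0 : ℝ) < (1 / 2) ^ m := by positivity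
    linarith
  have s2 : Summable sg :=
    (summable_geometric_of_lt_one (by norm_num) (by norm_num)).div_const 2
  have hs : Summable fun m => 2 * (w m / η) + 2 * (sg m * C) :=
    ((s1.div_const η).mul_left 2).add ((s2.mul_right C).mul_left 2)
  have e1 : ∀ᶠ m in atTop, w m / η ≤ 1 / 4 := by
    have := (s1.div_const η).tendsto_atTop_zero
    exact this.eventually (ge_mem_nhds (by norm_num))
  have e3 : ∀ᶠ m in atTop, sg m * C ≤ 1 := by
    have := (s2.mul_right C).tendsto_atTop_zero
    exact this.eventually (ge_mem_nhds (by norm_num))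
  have := hs.hasProdLocallyUniformlyOn_nat_one_add (f := fun m z => GG w m z - 1)
    (K := Metric.ball z₀ η) Metric.isOpen_ball ?_ ?_
  · have h := this.tendstoLocallyUniformlyOn_finsetRange
    have e : gg w = fun x => ∏' i, (1 + (GG w i x - 1)) := rfl
    rw [e]
    simpa only [add_sub_cancel] using h
  · filter_upwards [e1, e3] with m h1 h3 z hz
    have hz' := Metric.ball_subset_closedBall hz
    have hy := him z hz'
    have k1 := th_le (hw.pos m) hη hy
    have k2 := bt_near (sg_pos m) (sg_le m) (k1.trans h1)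
    set e := exp (I * (sg m / Real.pi : ℝ) * log (z - tt m)) with he
    have k3 : ‖I * (sg m / Real.pi : ℝ) * log (z - tt m)‖ ≤ sg m * C := by
      have hp := sg_pos m
      rw [norm_mul, norm_mul, norm_I, one_mul, Complex.norm_real,
        Real.norm_of_nonneg (by positivity)]
      refine mul_le_mul (div_le_self hp.le (by linarith [Real.pi_gt_three]))
        (hC (z, tt m) ⟨hz', (tt_pos m).le, by linarith [tt_le m]⟩) (norm_nonneg _) hp.le
    have k4 : ‖e - 1‖ ≤ 2 * (sg m * C) :=
      (norm_exp_sub_one_le (k3.trans h3)).trans (by linarith)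
    have k5 : ‖e‖ ≤ 1 := by
      rw [he, norm_exp, Real.exp_le_one_iff]
      have := D0 (t := tt m) (sg_pos m) (z := z) (by linarith)
      simp only [mul_re, mul_im, I_re, I_im, ofReal_re, ofReal_im, log_im]
      linarith
    have : GG w m z - 1 = (bt (sg m) (th (w m) z) - 1) * e + (e - 1) := by
      unfold GG Gm; ring
    rw [this]
    refine (norm_add_le _ _).trans (add_le_add ?_ k4)
    rw [norm_mul]
    nlinarith [norm_nonneg (bt (sg m) (th (w m) z) - 1), norm_nonneg e]
  · intro m z hz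
    have hy := him z (Metric.ball_subset_closedBall hz)
    exact ((Gm_diff (sg_pos m) (sg_le m) (hw.pos m) (by linarith)).continuousAt.sub
      continuousAt_const).continuousWithinAt

theorem gg_diff {w : ℕ → ℝ} (hw : Par w) : DifferentiableOn ℂ (gg w) {z | 0 < z.im} := by
  intro z hz
  have hz : 0 < z.im := hz
  have := (conv hw hz).differentiableOn (Eventually.of_forall fun M => ?_) Metric.isOpen_ball
  · exact (this.differentiableAt (Metric.ball_mem_nhds _ (by positivity))).differentiableWithinAt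
  · refine DifferentiableOn.fun_finset_prod fun m _ y hy => ?_
    refine (Gm_diff (sg_pos m) (sg_le m) (hw.pos m) ?_).differentiableWithinAt
    have h1 := abs_im_le_norm (y - z)
    rw [Metric.mem_ball, dist_eq_norm] at hy
    rw [sub_im] at h1
    have := (abs_lt.1 (h1.trans_lt hy)).1
    linarith

theorem gg_lim {w : ℕ → ℝ} (hw : Par w) {z : ℂ} (hz : 0 < z.im) :
    Tendsto (fun M => ∏ m ∈ Finset.range M, ‖GG w m z‖) atTop (𝓝 ‖gg w z‖) := by
  have := ((conv hw hz).tendsto_at (Metric.mem_ball_self (by positivity))).norm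
  simpa only [norm_prod] using this

theorem gg_ge {w : ℕ → ℝ} (hw : Par w) {z : ℂ} (hz : 0 < z.im) (l : ℕ → ℝ) {L : ℝ} (n : ℕ)
    (h : ∀ m, Real.exp (l m) ≤ ‖GG w m z‖) (hL : ∀ M, n < M → L ≤ ∑ m ∈ Finset.range M, l m) :
    Real.exp L ≤ ‖gg w z‖ := by
  refine ge_of_tendsto (gg_lim hw hz) ?_
  filter_upwards [eventually_gt_atTop n] with M hM
  refine (Real.exp_le_exp.2 (hL M hM)).trans ?_
  rw [Real.exp_sum]
  exact Finset.prod_le_prod (fun _ _ => (Real.exp_pos _).le) fun m _ => h m

theorem gg_le {w : ℕ → ℝ} (hw : Par w) {z : ℂ} (hz : 0 < z.im) (l : ℕ → ℝ) {L : ℝ} (n : ℕ)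
    (h : ∀ m, ‖GG w m z‖ ≤ Real.exp (l m)) (hL : ∀ M, n < M → ∑ m ∈ Finset.range M, l m ≤ L) :
    ‖gg w z‖ ≤ Real.exp L := by
  refine le_of_tendsto (gg_lim hw hz) ?_
  filter_upwards [eventually_gt_atTop n] with M hM
  refine le_trans ?_ (Real.exp_le_exp.2 (hL M hM))
  rw [Real.exp_sum]
  exact Finset.prod_le_prod (fun _ _ => norm_nonneg _) fun m _ => h m

theorem tail_sum {f : ℕ → ℝ} (pos : ∀ n, 0 ≤ f n) (half : ∀ n, f (n + 1) ≤ f n / 2) (n M : ℕ) :
    ∑ m ∈ Finset.range M, (if n < m then f m else 0) ≤ 2 * f (n + 1) := by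
  have key : ∀ M, n + 1 ≤ M →
      ∑ m ∈ Finset.range M, (if n < m then f m else 0) ≤ 2 * f (n + 1) - 2 * f M := by
    intro M hM
    induction M, hM using Nat.le_induction with
    | base =>
      rw [Finset.sum_eq_zero fun m hm => if_neg (by simp at hm; omega)]; simp
    | succ M hM ih =>
      rw [Finset.sum_range_succ, if_pos (by omega)]
      linarith [half M]
  by_cases h : n + 1 ≤ M
  · linarith [key M h, pos M]
  · rw [Finset.sum_eq_zero fun m hm => if_neg (by simp at hm; omega)]; linarith [pos (n + 1)]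

theorem head_sum (f : ℕ → ℝ) {n M : ℕ} (h : n ≤ M) :
    ∑ m ∈ Finset.range M, (if m < n then f m else 0) = ∑ m ∈ Finset.range n, f m := by
  rw [← Finset.sum_filter]
  congr 1
  ext m; simp; omega

theorem geo_sum (M : ℕ) : ∑ m ∈ Finset.range M, ((1 : ℝ) / 4) ^ m ≤ 4 / 3 := by
  have : ∑ m ∈ Finset.range M, ((1 : ℝ) / 4) ^ m = 4 / 3 - 4 / 3 * (1 / 4) ^ M := by
    induction M with
    | zero => simp
    | succ M ih => rw [Finset.sum_range_succ, ih]; ring
  rw [this]
  have : (0 : ℝ) < (1 / 4) ^ M := by positivity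
  linarith

end Pool.Agent.H.Lev
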