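import Pool.Agent.H.MP_0013e0_an.Prod
set_option autoImplicit false
open Set Topology Filter Complex

namespace Pool.Agent.H.Lev
variable {w : ℕ → ℝ}

noncomputable def ff (w : ℕ → ℝ) (l : ℝ) (z : ℂ) : ℂ := gg w z * exp (I * l * z)

theorem norm_ff (w : ℕ → ℝ) (l : ℝ) (z : ℂ) : ‖ff w l z‖ = ‖gg w z‖ * Real.exp (-(l * z.im)) := by
  rw [ff, norm_mul, norm_exp]; simp

theorem ff_gt {l L : ℝ} {z : ℂ} (h : Real.exp L ≤ ‖gg w z‖) (hL : l * z.im < L) :
    1 < ‖ff w l z‖ := by
  rw [norm_ff]
  refine lt_of_lt_of_le ?_ (mul_le_mul_of_nonneg_right h (Real.exp_pos _).le)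
  rw [← Real.exp_add, Real.one_lt_exp_iff]; linarith

theorem ff_lt {l L : ℝ} {z : ℂ} (h : ‖gg w z‖ ≤ Real.exp L) (hL : L < l * z.im) :
    ‖ff w l z‖ < 1 := by
  rw [norm_ff]
  refine lt_of_le_of_lt (mul_le_mul_of_nonneg_right h (Real.exp_pos _).le) ?_
  rw [← Real.exp_add, Real.exp_lt_one_iff]; linarith

theorem Par.anti (hw : Par w) : Antitone w := antitone_nat_of_succ_le fun m => by
  linarith [hw.half m, hw.pos m]
theorem Par.le1 (hw : Par w) (n : ℕ) : w n ≤ 1 / 200 := by linarith [hw.sm n, tt_le n]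
theorem Par.eta_pos (hw : Par w) (n : ℕ) : 0 < eta n (w n) := by
  unfold eta; have := hw.pos n; have := sg_pos n; positivity
theorem Par.eta_le (hw : Par w) (n : ℕ) : eta n (w n) ≤ w n := by
  unfold eta; have := hw.pos n; have h1 := sg_pos n; have h2 := sg_le n
  have : sg n ^ 2 ≤ 1 := by nlinarith
  nlinarith
theorem Par.del_pos (hw : Par w) (n : ℕ) : 0 < del n (w n) := by
  unfold del; have := hw.pos n; have := tau_pos n; positivity
theorem Par.del_le (hw : Par w) (n : ℕ) : del n (w n) ≤ tau n / 100 ∧ del n (w n) ≤ w n := by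
  unfold del; have := hw.pos n; have := tau_pos n; have := hw.le1 n; have := tau_le n
  have := sg_le n
  constructor <;> nlinarith
theorem Par.kap_pos (hw : Par w) (n : ℕ) : 0 < kap n (w n) := by
  unfold kap; have := hw.pos n; have := sg_pos n; positivity
theorem Par.eta_succ (hw : Par w) (n : ℕ) : eta (n + 1) (w (n + 1)) ≤ eta n (w n) := by
  have h1 := hw.eta_le (n + 1); have h2 := hw.c1 n; have h3 := (hw.del_le n).2
  have h4 := hw.le1 n; have h5 := hw.eta_pos n; have := hw.pos (n + 1)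
  nlinarith

theorem Par.low (hw : Par w) {m : ℕ} {z : ℂ} (hz : 0 < z.im) (h : kap m (w m) * z.im ≤ 1 / 2) :
    Real.exp (sg m - kap m (w m) * z.im) ≤ ‖bt (sg m) (th (w m) z)‖ := by
  refine bt_ge (sg_pos m) (sg_le m) (th_le_one (hw.pos m) hz)
    (mul_nonneg (hw.kap_pos m).le hz.le) h ((th_sq z).trans (le_of_eq ?_))
  have := hw.pos m; have := sg_pos m
  unfold kap; field_simp; ring

theorem Par.near (hw : Par w) {k m : ℕ} (hk : k < m) {z : ℂ} (hz : eta k (w k) ≤ z.im) :
    ‖bt (sg m) (th (w m) z)‖ ≤ Real.exp (2 * (w m / eta k (w k))) ∧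
      Real.exp (-(4 * (w m / eta k (w k)))) ≤ ‖bt (sg m) (th (w m) z)‖ := by
  refine bt_near_le (sg_pos m) (sg_le m) (th_le (hw.pos m) (hw.eta_pos k) hz) ?_
  rw [div_le_iff₀ (hw.eta_pos k)]
  have h1 := hw.anti (show k + 1 ≤ m from hk)
  have h2 := hw.c1 k; have h3 := (hw.del_le k).2
  have h4 := hw.le1 k; have h5 := hw.eta_pos k
  nlinarith

theorem Par.tail (hw : Par w) (k M : ℕ) :
    ∑ m ∈ Finset.range M, (if k < m then 4 * (w m / eta k (w k)) else 0) ≤ del k (w k) := by
  have h5 := hw.eta_pos k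
  have := tail_sum (f := fun m => 4 * (w m / eta k (w k)))
    (fun m => by have := hw.pos m; positivity)
    (fun m => by
      have : w (m + 1) / eta k (w k) ≤ (w m / 2) / eta k (w k) := by gcongr; exact hw.half m
      rw [div_right_comm] at this
      linarith) k M
  refine this.trans ?_
  have h2 := hw.c1 k
  have : w (k + 1) / eta k (w k) ≤ del k (w k) / 8 := by
    rw [div_le_iff₀ h5]; linarith
  linarith

theorem posH (hw : Par w) {l : ℝ} (hl : l ≤ 7) {n k : ℕ} (hk : n ≤ k) {z : ℂ}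
    (h1 : eta k (w k) ≤ z.im) (h2 : z.im ≤ eta n (w n)) (hx : tt n < z.re)
    (hf : ∀ m, n < m → m ≤ k → 1 ≤ ‖bt (sg m) (th (w m) z)‖) : 1 < ‖ff w l z‖ := by
  have hz : 0 < z.im := (hw.eta_pos k).trans_le h1
  have s0 := sg_pos n
  have s1 := sg_le n
  have hK : (∑ m ∈ Finset.range (n + 1), kap m (w m)) * z.im ≤ 16 * sg n / 100 := by
    refine (mul_le_mul (kap_sum hw.pos hw.half n) h2 hz.le (by linarith [hw.kap_pos n])).trans
      (le_of_eq ?_)
    have := hw.pos n
    unfold kap eta; field_simp; ring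
  have hK' : ∀ m ≤ n, kap m (w m) * z.im ≤ 1 / 2 := fun m hm => by
    have := Finset.single_le_sum (f := fun m => kap m (w m)) (s := Finset.range (n + 1))
      (fun m _ => (hw.kap_pos m).le) (a := m) (by simp; omega)
    have := mul_le_mul_of_nonneg_right this hz.le
    linarith
  refine ff_gt (gg_ge hw hz (fun m => (if m = n then sg n / 2 else 0) -
    (if m < n + 1 then kap m (w m) * z.im else 0) - (if n < m then sg m else 0) -
    (if k < m then 4 * (w m / eta k (w k)) else 0)) n
    (L := sg n / 2 - 16 * sg n / 100 - sg n / 4 - sg n / 100) (fun m => ?_) fun M hM => ?_) ?_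
  · rcases lt_trichotomy m n with h | h | h
    · refine le_trans (le_of_eq ?_) (Gm_ge (hw.low hz (hK' m h.le)) (D1 (sg_pos m) z))
      rw [if_neg h.ne, if_pos (by omega), if_neg (by omega), if_neg (by omega)]; ring_nf
    · subst h
      refine le_trans (le_of_eq ?_) (Gm_ge (hw.low hz (hK' m le_rfl)) (D2 (sg_pos m) hz hx))
      rw [if_pos rfl, if_pos (by omega), if_neg (by omega), if_neg (by omega)]; ring_nf
    · by_cases h' : k < m
      · refine le_trans (le_of_eq ?_) (Gm_ge (hw.near h' h1).2 (D1 (sg_pos m) z))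
        rw [if_neg h.ne', if_neg (by omega), if_pos h, if_pos h']; ring_nf
      · refine le_trans (le_of_eq ?_) (Gm_ge (a := 0) (by simpa using hf m h (not_lt.1 h'))
          (D1 (sg_pos m) z))
        rw [if_neg h.ne', if_neg (by omega), if_pos h, if_neg h']; ring_nf
  · simp only [Finset.sum_sub_distrib]
    rw [Finset.sum_ite_eq', if_pos (by simpa using hM), head_sum _ (show n + 1 ≤ M from hM),
      ← Finset.sum_mul]
    have t1 := tail_sum (f := sg) (fun m => (sg_pos m).le)
      (fun m => by rw [sg_succ]; linarith [sg_pos m]) n M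
    have t2 := hw.tail k M
    have t3 := (hw.del_le k).1
    have t4 := tau_le k
    have t5 := sg_anti hk
    rw [sg_succ] at t1
    linarith
  · have : eta n (w n) ≤ sg n / 1000 := by
      unfold eta; have := hw.le1 n; have := hw.pos n
      have : w n * sg n ≤ 1 / 10 := by nlinarith
      nlinarith
    nlinarith

theorem coef (m : ℕ) : sg m / (3 * (tt m / 8)) = 8 / 3 * (1 / 4) ^ m := by
  have := tt_pos m
  rw [sg_tt]; field_simp

theorem posT (hw : Par w) {l : ℝ} (hl : l ≤ 7) {n k : ℕ} {z : ℂ}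
    (h1 : eta n (w n) ≤ z.im) (h2 : z.im ≤ TT n * w n) (hx : 5 / 4 * tt n ≤ z.re)
    (hf : z.re = (2 * k + 1) * Real.pi * w n) : 1 < ‖ff w l z‖ := by
  have hz : 0 < z.im := (hw.eta_pos n).trans_le h1
  have s0 := tau_pos n
  have c2 := hw.c2 n
  have hS : 0 ≤ ∑ m ∈ Finset.range n, kap m (w m) :=
    Finset.sum_nonneg fun m _ => (hw.kap_pos m).le
  have hK : (∑ m ∈ Finset.range n, kap m (w m) + 11) * z.im ≤ tau n / 3 :=
    (mul_le_mul_of_nonneg_left h2 (by linarith)).trans c2
  have hK' : ∀ m < n, kap m (w m) * z.im ≤ 1 / 2 := fun m hm => by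
    have := Finset.single_le_sum (f := fun m => kap m (w m)) (s := Finset.range n)
      (fun m _ => (hw.kap_pos m).le) (a := m) (by simpa using hm)
    have := mul_le_mul_of_nonneg_right this hz.le
    have := tau_le n; have := sg_le n
    nlinarith
  have hD : ∀ m, n ≤ m → sg m / Real.pi * arg (z - tt m) ≤ 8 / 3 * (1 / 4) ^ m * z.im :=
    fun m hm => by
      rw [← coef]
      have := tt_anti hm; have := tt_pos m
      exact D3 (sg_pos m) (by positivity) hz (by linarith)
  refine ff_gt (gg_ge hw hz (fun m => (if m = n then tau n else 0) -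
    (if m < n then kap m (w m) * z.im else 0) - 8 / 3 * (1 / 4) ^ m * z.im -
    (if n < m then 4 * (w m / eta n (w n)) else 0)) n
    (L := tau n - (∑ m ∈ Finset.range n, kap m (w m)) * z.im - 32 / 9 * z.im - tau n / 100)
    (fun m => ?_) fun M hM => ?_) ?_
  · rcases lt_trichotomy m n with h | h | h
    · refine le_trans (Real.exp_le_exp.2 ?_) (Gm_ge (hw.low hz (hK' m h)) (D1 (sg_pos m) z))
      rw [if_neg h.ne, if_pos h, if_neg (by omega)]
      have : 0 ≤ 8 / 3 * (1 / 4) ^ m * z.im := by positivity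
      linarith
    · subst h
      have hb : Real.exp (tau m) ≤ ‖bt (sg m) (th (w m) z)‖ := by
        rw [th_odd (hw.pos m) hf]
        refine le_trans (Real.exp_le_exp.2 ?_) (bt_neg (sg_pos m) (sg_le m) (Real.exp_pos _).le
          (Real.exp_le_one_iff.2 (by have := hw.pos m; rw [neg_nonpos]; positivity)))
        unfold tau
        have := sg_pos m
        have : z.im / w m ≤ TT m := by rw [div_le_iff₀ (hw.pos m)]; exact h2
        gcongr
      refine le_trans (le_of_eq ?_) (Gm_ge hb (hD m le_rfl))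
      rw [if_pos rfl, if_neg (by omega), if_neg (by omega)]; ring_nf
    · refine le_trans (le_of_eq ?_) (Gm_ge (hw.near h h1).2 (hD m h.le))
      rw [if_neg h.ne', if_neg (by omega), if_pos h]; ring_nf
  · simp only [Finset.sum_sub_distrib]
    rw [Finset.sum_ite_eq', if_pos (by simpa using hM), head_sum _ hM.le,
      ← Finset.sum_mul, ← Finset.sum_mul, ← Finset.mul_sum]
    have t2 := hw.tail n M
    have t3 := (hw.del_le n).1
    have t4 := geo_sum M
    nlinarith
  · nlinarith

theorem negT (hw : Par w) {l : ℝ} (hl : 6 ≤ l) {n k : ℕ} {z : ℂ}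
    (h1 : w n ≤ z.im) (hx : z.re ≤ 7 / 4 * tt n)
    (hf : z.re = 2 * k * Real.pi * w n) : ‖ff w l z‖ < 1 := by
  have hz : 0 < z.im := (hw.pos n).trans_le h1
  have h1' := (hw.eta_le n).trans h1
  refine ff_lt (gg_le hw hz (fun m => 8 / 3 * (1 / 4) ^ m * z.im +
    (if n < m then 4 * (w m / eta n (w n)) else 0)) n
    (L := 32 / 9 * z.im + z.im) (fun m => ?_) fun M hM => ?_) ?_
  · have p0 : 0 ≤ 8 / 3 * (1 / 4) ^ m * z.im := by positivity
    rcases lt_trichotomy m n with h | h | h
    · have := tt_anti (show m + 1 ≤ n from h); have := tt_pos m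
      rw [tt_succ] at *
      refine le_trans (Gm_le (bt_le (sg_pos m) (sg_le m) (th_le_one (hw.pos m) hz))
        (D4 (e := tt m / 8) (sg_pos m) (by positivity) hz (by linarith))) (le_of_eq ?_)
      rw [if_neg (by omega), coef]; ring_nf
    · subst h
      have hb : ‖bt (sg m) (th (w m) z)‖ ≤ Real.exp 0 := by
        rw [th_even (hw.pos m) hf, Real.exp_zero]
        refine bt_pos (sg_pos m) (sg_le m) (Real.exp_pos _).le ?_
        have : 1 ≤ z.im / w m := by rw [le_div_iff₀ (hw.pos m)]; linarith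
        have h3 := e2 (s := 1 / 2) (by norm_num) le_rfl
        exact (Real.exp_le_exp.2 (by linarith)).trans (h3.trans (by norm_num))
      refine le_trans (Gm_le hb (D0 (sg_pos m) hz)) (Real.exp_le_exp.2 ?_)
      rw [if_neg (by omega)]; linarith
    · refine le_trans (Gm_le (hw.near h h1').1 (D0 (sg_pos m) hz)) (Real.exp_le_exp.2 ?_)
      rw [if_pos h]
      have : 0 ≤ w m / eta n (w n) := div_nonneg (hw.pos m).le (hw.eta_pos n).le
      linarith
  · simp only [Finset.sum_add_distrib]
    rw [← Finset.sum_mul, ← Finset.mul_sum]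
    have t2 := hw.tail n M
    have t3 := (hw.del_le n).2
    have t4 := geo_sum M
    nlinarith
  · nlinarith

theorem gg_bd (hw : Par w) {z : ℂ} (hz : 0 < z.im) : ‖gg w z‖ ≤ Real.exp 1 := by
  refine gg_le hw hz sg 0 (fun m => ?_) fun M _ => ?_
  · simpa [GG] using Gm_le (bt_le (sg_pos m) (sg_le m) (th_le_one (hw.pos m) hz)) (D0 (sg_pos m) hz)
  · have : ∑ m ∈ Finset.range M, sg m ≤ ∑ m ∈ Finset.range M, ((1 : ℝ) / 4) ^ m / 2 := by
      refine Finset.sum_le_sum fun m _ => ?_
      unfold sg; gcongr; norm_num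
    rw [← Finset.sum_div] at this
    linarith [geo_sum M]

end Pool.Agent.H.Lev
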